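import Pool.Agent.Helper143.SimOrd

namespace Pool.Agent.Results.MP_b29d7f_nt.PositiveDensity

open Finset

/-- `a` is a simultaneous `p`-ordering of `S`: a sequence in `S` such that, for every prime `p`
and every `k`, the term `a k` minimises the `p`-adic valuation of `∏_{i<k} (x - a i)` over
`x ∈ S` (`emultiplicity p 0 = ⊤`). -/
def IsSimultaneousOrdering (S : Set ℤ) (a : ℕ → ℤ) : Prop :=
  (∀ n, a n ∈ S) ∧ ∀ p : ℕ, p.Prime → ∀ k : ℕ, ∀ x ∈ S,
    emultiplicity (p : ℤ) (∏ i ∈ range k, (a k - a i)) ≤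
      emultiplicity (p : ℤ) (∏ i ∈ range k, (x - a i))

/-- `S` has positive upper Banach density: for some `δ > 0` there are arbitrarily long windows
`[x, x + L)` of integers containing at least `δ L` elements of `S`. -/
def PositiveUpperBanachDensity (S : Set ℤ) : Prop :=
  ∃ δ : ℝ, 0 < δ ∧ ∀ L₀ : ℕ, ∃ L : ℕ, L₀ ≤ L ∧ 0 < L ∧
    ∃ x : ℤ, δ * L ≤ ((S ∩ Set.Ico x (x + L)).ncard : ℝ)

/-- A set of integers of positive upper Banach density has a simultaneous `p`-ordering if and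
only if it lies in a residue class `b + m ℤ` and contains one of the two rays
`b, b + m, b + 2m, …` and `b, b - m, b - 2m, …` of it. -/
theorem result (S : Set ℤ) (hS : PositiveUpperBanachDensity S) :
    (∃ a : ℕ → ℤ, IsSimultaneousOrdering S a) ↔
      ∃ (m : ℕ) (b : ℤ), 0 < m ∧ (∀ x ∈ S, (m : ℤ) ∣ x - b) ∧
        ((∀ k : ℕ, b + m * k ∈ S) ∨ (∀ k : ℕ, b - m * k ∈ S)) :=
  Pool.Agent.Helper143.SimOrd.SO.main S hS

end Pool.Agent.Results.MP_b29d7f_nt.PositiveDensity
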